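import Pool.Agent.Helper29.BE.Dens

/-!
# Representations `n = k + m` with `p_k` and `p_{p_m}` shifted by arbitrary even numbers

The problem asks, for every `n > 2`, for a representation `n = k + m` such that `p_k + 2` and
`p_{p_m} + 2` are prime. Here the two shifts are other even numbers: for EVERY large `n`, and all `H`
from `n ^ 34` up to about `exp (√n)`, at least `c H² / (log log log n)²` of the pairs of even numbers
`h, h' ≤ H` have a representation `n = k + m` for which `p_k + h` and `p_{p_m} + h'` are both prime.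
More generally one representation serves `r` shifts at once (some applied to `p_k`, the others to
`p_{p_m}`, with either sign) for at least `c_r H ^ r / (log log log n) ^ r` of the `r`-tuples of even
shifts, if `(log H) ^ r ≤ n - 3`.

The starting result `IndexShiftPairs` concerns the shifts which are divisible by the product of the
primes up to a multiple of `log log n` (almost all of them); these form a set of density
`(log n) ^ (-K)` among the even numbers, so that it says nothing about most shifts.

The proof is the second moment method, with the sharp form of the upper bound sieve for prime pairs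
and the moments of the singular factor over differences of the starting library
(`Pool.Agent.H197R2.PG`), in a form for vectors of shifts (`Pool.Agent.Helper29.BE.main`).
-/

set_option autoImplicit false

open Finset Filter Topology

namespace Pool.Agent.Results.MP_04e9b2_nt.ShiftPairs

/-- The `j`-th prime: `p 1 = 2`, `p 2 = 3`, `p 3 = 5`, and so on. -/
noncomputable def p (j : ℕ) : ℕ := Nat.nth Nat.Prime (j - 1)

/-- For `b = true`: the number `a + h` is prime. For `b = false`: the number `h - a` is positive and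
prime. -/
def PrimeShift (b : Bool) (a h : ℕ) : Prop :=
  if b = true then (a + h).Prime else (a < h ∧ (h - a).Prime)

/-- The `r`-tuples of even numbers `1 ≤ h j ≤ H` such that for some `k, m ≥ 1` with `k + m = n` all
the numbers `a + h j` (for `s j = true`) and `h j - a` (for `s j = false`) are prime, where `a` is
`p_k` if `τ j = true` and `p_{p_m}` if `τ j = false`. -/
def shifts {r : ℕ} (τ s : Fin r → Bool) (n H : ℕ) : Set (Fin r → ℕ) :=
  {h | (∀ j, 1 ≤ h j ∧ h j ≤ H ∧ Even (h j)) ∧ ∃ k m : ℕ, 1 ≤ k ∧ 1 ≤ m ∧ k + m = n ∧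
    ∀ j, PrimeShift (s j) (if τ j = true then p k else p (p m)) (h j)}

open Pool.Agent.Helper29.BE in
/-- **Shifts for `p_k` and `p_{p_m}`, `k + m = n`.** For every `r ≥ 1` there are `c > 0` and `n₀` such
that for all `n ≥ n₀`, all `H` with `n ^ 34 ≤ H` and `(log H) ^ r ≤ n - 3`, all types `τ` and all signs
`s`: for at least `c H ^ r / (log log log n) ^ r` of the `r`-tuples of even numbers `h_j ≤ H` there are
`k, m ≥ 1` with `k + m = n` such that all the numbers `a_j + h_j` (or `h_j - a_j`) are prime, where
`a_j` is `p_k` or `p_{p_m}` according to `τ`. -/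
theorem result (r : ℕ) (hr : 1 ≤ r) : ∃ c : ℝ, 0 < c ∧ ∃ n₀ : ℕ, ∀ n : ℕ, n₀ ≤ n → ∀ H : ℕ,
    n ^ 34 ≤ H → Real.log H ^ r ≤ n - 3 → ∀ τ s : Fin r → Bool,
    c * H ^ r / Real.log (Real.log (Real.log n)) ^ r ≤ ((shifts τ s n H).ncard : ℝ) := by
  classical
  obtain ⟨c, hc, n₀, h⟩ := shiftsD r 8 hr
  obtain ⟨n₁, hn₁⟩ := eventually_atTop.1 (PP_le_log.and (ev_half.and
    ((tLog.eventually_ge_atTop 4).and (eventually_ge_atTop (n₀ + 6)))))
  refine ⟨c, hc, n₁, fun n hn H hH hHn τ s => ?_⟩
  obtain ⟨g1, g2, g3, g4⟩ := hn₁ n hn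
  have hn6 : 6 ≤ n := by omega
  have hn6' : (6 : ℝ) ≤ n := by exact_mod_cast hn6
  set T : Finset ℕ := Icc 2 (n - 2) with hT
  have hPm : ∀ m ∈ T, 2 ≤ m ∧ m ≤ n - 2 := fun m hm => mem_Icc.1 hm
  have hTc : (#T : ℝ) = n - 3 := by
    rw [hT, Nat.card_Icc]
    have e1 : n - 2 + 1 - 2 = n - 3 := by omega
    rw [e1, Nat.cast_sub (by omega)]
    norm_num
  set Y : ℕ := P (P n) with hY
  have hYn2 : Y ≤ n ^ 2 := by
    have h1 : (Y : ℝ) ≤ (n : ℝ) ^ 2 := by
      calc (Y : ℝ) ≤ n * Real.log n ^ 7 := g1
        _ ≤ n * n := mul_le_mul_of_nonneg_left g2 (by linarith)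
        _ = (n : ℝ) ^ 2 := by ring
    exact_mod_cast h1
  have h1 := h n (by omega) Y H ((le_P n).trans (le_P (P n))) (by
      calc Y ^ 17 ≤ (n ^ 2) ^ 17 := Nat.pow_le_pow_left hYn2 17
        _ = n ^ 34 := by ring
        _ ≤ H := hH) T (fun j m => if τ j = true then P (n - m) else P (P m)) s (by
    intro j m hm m' hm' hmm
    obtain ⟨hm1, hm2⟩ := hPm m (mem_coe.1 hm)
    obtain ⟨hm1', hm2'⟩ := hPm m' (mem_coe.1 hm')
    simp only at hmm
    by_cases hτ : τ j = true
    · rw [if_pos hτ, if_pos hτ] at hmm
      have e2 := P_inj (by omega) (by omega) hmm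
      omega
    · rw [if_neg hτ, if_neg hτ] at hmm
      have k1 := (P_prime m).pos
      have k2 := (P_prime m').pos
      have e2 := P_inj (by omega) (by omega) hmm
      exact P_inj (by omega) (by omega) e2) (by
    intro j m hm
    obtain ⟨hm1, hm2⟩ := hPm m hm
    by_cases hτ : τ j = true
    · rw [if_pos hτ]
      exact ⟨Nat.odd_iff.2 (P_odd (by omega)).2,
        (P_mono ((Nat.sub_le n m).trans (le_P n)))⟩
    · rw [if_neg hτ]
      have k1 := (P_odd hm1).1
      exact ⟨Nat.odd_iff.2 (P_odd (by omega)).2, P_mono (P_mono (by omega))⟩)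
    (by rw [hTc]; exact hHn) (by
      rw [hTc]
      have h2 : (n : ℝ) / 2 ≤ n - 3 := by linarith
      have h3 : 0 ≤ Real.log (n : ℝ) := by linarith
      calc 2 * (Y : ℝ) ≤ 2 * (n * Real.log n ^ 7) := by linarith
        _ = Real.log n ^ 7 * 4 * (n / 2) := by ring
        _ ≤ Real.log n ^ 7 * Real.log n * (n - 3) := by gcongr
        _ = Real.log n ^ 8 * (n - 3) := by ring)
  refine h1.trans ?_
  apply Nat.cast_le.2
  apply card_le
  intro h m hm hp
  obtain ⟨hm1, hm2⟩ := hPm m hm
  exact ⟨n - m, m, by omega, by omega, by omega, hp⟩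

end Pool.Agent.Results.MP_04e9b2_nt.ShiftPairs
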